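import Mathlib

/-! # Definitions for the theorem on manifolds with immersive symmetric differentials
(MP_45e720_ag).

A complex manifold is a charted space `X` over a finite-dimensional complex normed space `E` with
analytic transition maps; a map between complex manifolds is holomorphic if it is complex
differentiable (`MDifferentiable`). The tangent space at each point is `E`. -/

set_option autoImplicit false

open scoped Manifold ContDiff

namespace Pool.Agent.SS

section forms

variable (E X : Type) [NormedAddCommGroup E] [NormedSpace ℂ E] [TopologicalSpace X]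
  [ChartedSpace E X] [IsManifold 𝓘(ℂ, E) ω X]

/-- `p` is a homogeneous polynomial of degree `m` on `E`: the restriction to the diagonal of an
`m`-linear form. -/
def IsSymForm {E : Type} [NormedAddCommGroup E] [NormedSpace ℂ E] (m : ℕ) (p : E → ℂ) : Prop :=
  ∃ P : ContinuousMultilinearMap ℂ (fun _ : Fin m => E) ℂ, ∀ w, p w = P fun _ => w

/-- `σ` is a (holomorphic) symmetric differential of degree `m` on `X`, that is a section of the
`m`-th symmetric power of the cotangent bundle, regarded as a holomorphic function on the tangent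
bundle which is a homogeneous polynomial of degree `m` on each tangent space. -/
structure IsSymDiff (m : ℕ) (σ : TangentBundle 𝓘(ℂ, E) X → ℂ) : Prop where
  hol : MDifferentiable 𝓘(ℂ, E).tangent 𝓘(ℂ, ℂ) σ
  fib : ∀ x : X, IsSymForm m (fun w : E => σ ⟨x, w⟩)

/-- The cotangent bundle of `X` is strongly semiample: for some `m > 0` its `m`-th symmetric power
is generated by global sections. -/
def StronglySemiample : Prop :=
  ∃ m : ℕ, 0 < m ∧ ∀ (x : X) (p : E → ℂ), IsSymForm m p →
    ∃ σ : TangentBundle 𝓘(ℂ, E) X → ℂ, IsSymDiff E X m σ ∧ ∀ w : E, σ ⟨x, w⟩ = p w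

/-- The symmetric differentials of `X` are immersive along the tangent spaces: at every point `x`
and every tangent vector `w ≠ 0`, every tangent vector `u ≠ 0` is detected by the derivative at
`w`, in the direction `u`, of the restriction to the tangent space of some symmetric
differential. -/
def Immersive : Prop :=
  ∀ (x : X) (w : E), w ≠ 0 → ∀ u : E,
    (∀ (m : ℕ) (σ : TangentBundle 𝓘(ℂ, E) X → ℂ), IsSymDiff E X m σ →
      fderiv ℂ (fun w : E => σ ⟨x, w⟩) w u = 0) → u = 0

/-- The derivative at `x`, in the direction `u`, of a map `f` between complex manifolds with model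
spaces `E` and `F`. -/
noncomputable def dirDeriv {E F M N : Type} [NormedAddCommGroup E] [NormedSpace ℂ E]
    [NormedAddCommGroup F] [NormedSpace ℂ F] [TopologicalSpace M] [ChartedSpace E M]
    [TopologicalSpace N] [ChartedSpace F N] (f : M → N) (x : M) (u : E) : F :=
  mfderiv 𝓘(ℂ, E) 𝓘(ℂ, F) f x u

/-- Near `x` the map `ι` to the projective space of `W` is given by the nowhere vanishing
holomorphic map `g`, and `ι` is an immersion at `x`: the derivative of `g` at `x` in a direction
`u ≠ 0` is not a multiple of `g x`. -/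
def IsImmersiveLift {W : Type} [NormedAddCommGroup W] [NormedSpace ℂ W]
    (ι : X → Projectivization ℂ W) (g : X → W) (x : X) : Prop :=
  (∀ᶠ x' in nhds x, MDifferentiableAt 𝓘(ℂ, E) 𝓘(ℂ, W) g x') ∧
  (∀ᶠ x' in nhds x, ∃ h : g x' ≠ 0, ι x' = Projectivization.mk ℂ (g x') h) ∧
  ∀ (u : E) (a : ℂ), (dirDeriv g x u : W) = a • g x → u = 0

/-- `X` has an injective holomorphic immersion into some complex projective space. -/
def IsProjective : Prop :=
  ∃ (N : ℕ) (ι : X → Projectivization ℂ (Fin (N + 1) → ℂ)), Function.Injective ι ∧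
    ∀ x : X, ∃ g : X → Fin (N + 1) → ℂ, IsImmersiveLift E X ι g x

/-- Every holomorphic map from the complex plane to `X` is constant. -/
def BrodyHyperbolic : Prop :=
  ∀ f : ℂ → X, MDifferentiable 𝓘(ℂ, ℂ) 𝓘(ℂ, E) f → ∀ z z', f z = f z'

/-- Every holomorphic map from a complex torus `V / Λ` to `X` is constant (such maps are the same
as `Λ`-periodic holomorphic maps on `V`). -/
def NoTorusMaps : Prop :=
  ∀ (V : Type) [NormedAddCommGroup V] [NormedSpace ℂ V] [FiniteDimensional ℂ V]
    (Λ : Submodule ℤ V) [DiscreteTopology Λ] [IsZLattice ℝ Λ] (f : V → X),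
    MDifferentiable 𝓘(ℂ, V) 𝓘(ℂ, E) f → (∀ l ∈ Λ, ∀ z, f (z + l) = f z) → ∀ z z', f z = f z'

/-- No holomorphic map from a complex torus `V / Λ` of positive dimension to `X` is an
immersion. -/
def NoImmersedTori : Prop :=
  ∀ (V : Type) [NormedAddCommGroup V] [NormedSpace ℂ V] [FiniteDimensional ℂ V] [Nontrivial V]
    (Λ : Submodule ℤ V) [DiscreteTopology Λ] [IsZLattice ℝ Λ] (f : V → X),
    MDifferentiable 𝓘(ℂ, V) 𝓘(ℂ, E) f → (∀ l ∈ Λ, ∀ z, f (z + l) = f z) →
    ∃ z u : V, u ≠ 0 ∧ (dirDeriv f z u : E) = 0

end forms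

end Pool.Agent.SS
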