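import Pool.Agent.Lib_helper64.SS.Notions

/-! An unfolded form of `IsProjective`. -/

set_option autoImplicit false

open scoped Manifold ContDiff

namespace Pool.Agent.SS

/-- (auxiliary, unfolded form of `IsProjective`) -/
def IsProjectiveAux (E X : Type) [NormedAddCommGroup E] [NormedSpace ℂ E] [TopologicalSpace X]
    [ChartedSpace E X] : Prop :=
  ∃ (N : ℕ) (ι : X → Projectivization ℂ (Fin (N + 1) → ℂ)), Function.Injective ι ∧
    ∀ x : X, ∃ g : X → Fin (N + 1) → ℂ,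
      (∀ᶠ x' in nhds x, MDifferentiableAt 𝓘(ℂ, E) 𝓘(ℂ, Fin (N + 1) → ℂ) g x') ∧
      (∀ᶠ x' in nhds x, ∃ h : g x' ≠ 0, ι x' = Projectivization.mk ℂ (g x') h) ∧
      ∀ (u : E) (a : ℂ), mfderiv 𝓘(ℂ, E) 𝓘(ℂ, Fin (N + 1) → ℂ) g x u = a • g x → u = 0

theorem IsProjective.aux {E X : Type} [NormedAddCommGroup E] [NormedSpace ℂ E]
    [TopologicalSpace X] [ChartedSpace E X] [IsManifold 𝓘(ℂ, E) ω X] (h : IsProjective E X) :
    IsProjectiveAux E X := h

end Pool.Agent.SS
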