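import Pool.Agent.Lib_helper64.SS.Defs

/-! Basic facts on `Geo`, `HolAt`, `FlAt` (MP_45e720_ag). -/

set_option autoImplicit false
set_option linter.unusedSectionVars false

open Filter Topology Metric Set

namespace Pool.Agent.SS

variable {E X : Type} [NormedAddCommGroup E] [NormedSpace ℂ E] [TopologicalSpace X]

namespace Geo

variable (G : Geo E X)

section forms

theorem target_mem {y : X} {ξ : E} (h : ξ ∈ (G.ch y).target) : (G.ch y).target ∈ 𝓝 ξ :=
  (G.ch y).open_target.mem_nhds h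

theorem S_zero {y : X} {ξ : E} (h : ξ ∈ (G.ch y).target) (i : Fin G.L) : G.S y i ξ 0 = 0 := by
  have := G.homog y i ξ h 0 0
  rwa [smul_zero, zero_pow (G.deg_pos i).ne', zero_mul] at this

/-- the form at a point is analytic in the vector -/
theorem S_an {y : X} {ξ : E} (h : ξ ∈ (G.ch y).target) (i : Fin G.L) (w : E) :
    AnalyticAt ℂ (G.S y i ξ) w := by
  have h1 : AnalyticAt ℂ (fun w : E => (ξ, w)) w := analyticAt_const.prod analyticAt_id
  exact (G.hol y i ξ h w).comp h1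

/-- Euler's relation -/
theorem euler {y : X} {ξ : E} (h : ξ ∈ (G.ch y).target) (i : Fin G.L) (w : E) :
    fderiv ℂ (G.S y i ξ) w w = G.deg i * G.S y i ξ w := by
  have h1 : HasDerivAt (fun a : ℂ => G.S y i ξ (a • w)) (fderiv ℂ (G.S y i ξ) w w) 1 := by
    have h2 : HasDerivAt (fun a : ℂ => a • w) w 1 := by
      simpa using (hasDerivAt_id (1 : ℂ)).smul_const w
    have h3 : HasFDerivAt (G.S y i ξ) (fderiv ℂ (G.S y i ξ) w) ((1 : ℂ) • w) := by
      rw [one_smul]
      exact (G.S_an h i w).differentiableAt.hasFDerivAt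
    exact h3.comp_hasDerivAt (1 : ℂ) h2
  have h4 : HasDerivAt (fun a : ℂ => G.S y i ξ (a • w)) (G.deg i * G.S y i ξ w) 1 := by
    have h5 : (fun a : ℂ => G.S y i ξ (a • w)) = fun a => a ^ G.deg i * G.S y i ξ w := by
      funext a
      exact G.homog y i ξ h a w
    rw [h5]
    simpa using (hasDerivAt_pow (G.deg i) (1 : ℂ)).mul_const (G.S y i ξ w)
  exact h1.unique h4

theorem S_eq_zero {y : X} {ξ : E} (h : ξ ∈ (G.ch y).target) {w : E}
    (hw : ∀ i, G.S y i ξ w = 0) : w = 0 := by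
  by_contra h0
  exact h0 (G.inj y ξ h w h0 w fun i => by rw [G.euler h i w, hw i, mul_zero])

end forms

section maps

variable {V : Type} [NormedAddCommGroup V] [NormedSpace ℂ V] {G}

theorem State.ne_zero {c : V → Fin G.L → ℂ} (hc : ∀ u, c u = 0 → u = 0) {y : X} {ξ : E}
    (h : ξ ∈ (G.ch y).target) {b : V →L[ℂ] E} (hb : G.State c y ξ b) {u : V} (hu : b u = 0) :
    u = 0 := by
  refine hc u (funext fun i => ?_)
  rw [← hb i u, hu, G.S_zero h, Pi.zero_apply]

/-- change of charts for the expression of a map -/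
theorem loc_trans {F : V → X} {t : V} (hc : ContinuousAt F t) {y y' : X}
    (hy : F t ∈ (G.ch y).source) :
    G.loc y' F =ᶠ[𝓝 t] fun s => G.ch y' ((G.ch y).symm (G.loc y F s)) := by
  filter_upwards [hc.eventually ((G.ch y).open_source.mem_nhds hy)] with s hs
  rw [loc, loc, (G.ch y).left_inv hs]

theorem holAt_of_chart {F : V → X} {t : V} (hc : ContinuousAt F t) {y : X}
    (hy : F t ∈ (G.ch y).source) (ha : AnalyticAt ℂ (G.loc y F) t) : G.HolAt F t := by
  refine ⟨hc, fun y' hy' => ?_⟩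
  refine AnalyticAt.congr ?_ (loc_trans hc hy).symm
  have h1 : AnalyticAt ℂ (fun ξ => G.ch y' ((G.ch y).symm ξ)) (G.loc y F t) :=
    G.trans y y' (F t) hy hy'
  exact h1.comp ha

theorem HolAt.loc_mem {F : V → X} {t : V} (h : G.HolAt F t) {y : X}
    (hy : F t ∈ (G.ch y).source) : ∀ᶠ s in 𝓝 t, F s ∈ (G.ch y).source :=
  h.1.eventually ((G.ch y).open_source.mem_nhds hy)

/-- chain rule for a change of charts -/
theorem fderiv_loc {F : V → X} {t : V} (h : G.HolAt F t) {y y' : X}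
    (hy : F t ∈ (G.ch y).source) (hy' : F t ∈ (G.ch y').source) (u : V) :
    fderiv ℂ (G.loc y' F) t u =
      fderiv ℂ (fun ξ => G.ch y' ((G.ch y).symm ξ)) (G.ch y (F t)) (fderiv ℂ (G.loc y F) t u) := by
  rw [(loc_trans h.1 hy).fderiv_eq]
  have h1 : HasFDerivAt (fun ξ => G.ch y' ((G.ch y).symm ξ))
      (fderiv ℂ (fun ξ => G.ch y' ((G.ch y).symm ξ)) (G.ch y (F t))) (G.loc y F t) :=
    (G.trans y y' (F t) hy hy').differentiableAt.hasFDerivAt
  have h2 := h1.comp t (h.2 y hy).differentiableAt.hasFDerivAt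
  have h3 : fderiv ℂ (fun s => G.ch y' ((G.ch y).symm (G.loc y F s))) t = _ := h2.fderiv
  rw [h3]
  rfl

theorem flAt_of_chart {c : V → Fin G.L → ℂ} {Θ : V → V →L[ℂ] V} {F : V → X} {t : V}
    (hc : ContinuousAt F t) {y : X} (hy : F t ∈ (G.ch y).source)
    (ha : AnalyticAt ℂ (G.loc y F) t)
    (hS : ∀ i u, G.S y i (G.ch y (F t)) (fderiv ℂ (G.loc y F) t u) = c (Θ t u) i) :
    G.FlAt c Θ F t := by
  have hol := holAt_of_chart hc hy ha
  refine ⟨hol, fun y' hy' i u => ?_⟩
  rw [← hS i u, G.compat y y' (F t) hy hy', ← fderiv_loc hol hy hy']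

theorem HolAt.congr {F F' : V → X} {t : V} (h : G.HolAt F t) (he : F =ᶠ[𝓝 t] F') :
    G.HolAt F' t := by
  refine ⟨h.1.congr he, fun y hy => ?_⟩
  rw [← he.eq_of_nhds] at hy
  refine (h.2 y hy).congr ?_
  filter_upwards [he] with s hs
  rw [loc, loc, hs]

theorem FlAt.congr {c : V → Fin G.L → ℂ} {Θ : V → V →L[ℂ] V} {F F' : V → X} {t : V}
    (h : G.FlAt c Θ F t) (he : F =ᶠ[𝓝 t] F') : G.FlAt c Θ F' t := by
  refine ⟨h.1.congr he, fun y hy i u => ?_⟩
  have hy' : F t ∈ (G.ch y).source := by rwa [he.eq_of_nhds]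
  have h1 : G.loc y F =ᶠ[𝓝 t] G.loc y F' := by
    filter_upwards [he] with s hs
    rw [loc, loc, hs]
  rw [← h.2 y hy' i u, h1.fderiv_eq, he.eq_of_nhds]

theorem fderiv_loc_tr (F : V → X) (y : X) (s t : V) :
    fderiv ℂ (G.loc y (tr s F)) t = fderiv ℂ (G.loc y F) (t + s) := by
  have h : G.loc y (tr s F) = fun r => G.loc y F (r + s) := rfl
  rw [h, fderiv_comp_add_right]

theorem HolAt.tr {F : V → X} {s t : V} (h : G.HolAt F (t + s)) : G.HolAt (tr s F) t := by
  have h1 : AnalyticAt ℂ (fun r : V => r + s) t := analyticAt_id.add analyticAt_const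
  have h2 : ContinuousAt F ((fun r : V => r + s) t) := h.1
  refine ⟨h2.comp (f := fun r : V => r + s) h1.continuousAt, fun y hy => ?_⟩
  have h3 : AnalyticAt ℂ (G.loc y F) ((fun r : V => r + s) t) := h.2 y hy
  exact h3.comp (f := fun r : V => r + s) h1

theorem FlAt.tr {c : V → Fin G.L → ℂ} {Θ : V → V →L[ℂ] V} {F : V → X} {s t : V}
    (h : G.FlAt c Θ F (t + s)) : G.FlAt c (fun r => Θ (r + s)) (tr s F) t := by
  refine ⟨h.1.tr, fun y hy i u => ?_⟩
  rw [fderiv_loc_tr]
  exact h.2 y hy i u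

theorem K_tr {c : V → Fin G.L → ℂ} {F : V → X} (h : F ∈ G.K c) (s : V) : Pool.Agent.SS.tr s F ∈ G.K c :=
  fun t => (h (t + s)).tr

/-- the derivative of a flat map composed with the inverse of `Θ` is a state -/
theorem FlAt.state {c : V → Fin G.L → ℂ} {Θ : V → V →L[ℂ] V} {F : V → X} {t : V}
    (h : G.FlAt c Θ F t) {y : X} (hy : F t ∈ (G.ch y).source) {Θi : V →L[ℂ] V}
    (hi : ∀ u, Θ t (Θi u) = u) :
    G.State c y (G.ch y (F t)) ((fderiv ℂ (G.loc y F) t).comp Θi) := by
  intro i u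
  rw [ContinuousLinearMap.comp_apply, h.2 y hy i (Θi u), hi]

end maps

end Geo

theorem continuous_tr {V X : Type} [Add V] [TopologicalSpace X] (s : V) :
    Continuous (tr s : (V → X) → V → X) :=
  continuous_pi fun t => continuous_apply (t + s)

theorem tr_tr {V X : Type} [AddCommGroup V] (s t : V) (F : V → X) :
    tr s (tr t F) = tr (s + t) F := by
  funext r
  simp only [tr]
  rw [add_assoc]

theorem tr_zero {V X : Type} [AddCommGroup V] (F : V → X) : tr 0 F = F := by
  funext r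
  simp only [tr, add_zero]

end Pool.Agent.SS
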