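import Mathlib

/-! # Lang's problem for manifolds with many symmetric differentials (MP_45e720_ag): set-up

`Geo` is a complex manifold in terms of charts, with finitely many symmetric differentials
`S i` of degrees `deg i` such that for every nonzero tangent vector `w` the linear forms
`u ↦ D (S i) (w) u` have no common zero except `u = 0`.
-/

set_option autoImplicit false

open Filter Topology Metric Set

namespace Pool.Agent.SS

/-- A complex manifold, in charts, with symmetric differentials. -/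
structure Geo (E X : Type) [NormedAddCommGroup E] [NormedSpace ℂ E] [TopologicalSpace X] where
  /-- the chart centred at a point -/
  ch : X → OpenPartialHomeomorph X E
  /-- the number of symmetric differentials -/
  L : ℕ
  /-- their degrees -/
  deg : Fin L → ℕ
  /-- the `i`-th differential in the chart `ch y`, as a function of the point and the vector -/
  S : X → Fin L → E → E → ℂ
  mem : ∀ y, y ∈ (ch y).source
  trans : ∀ y y' x, x ∈ (ch y).source → x ∈ (ch y').source →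
    AnalyticAt ℂ (fun ξ => ch y' ((ch y).symm ξ)) (ch y x)
  deg_pos : ∀ i, 0 < deg i
  hol : ∀ y i, ∀ ξ ∈ (ch y).target, ∀ w, AnalyticAt ℂ (fun p : E × E => S y i p.1 p.2) (ξ, w)
  homog : ∀ y i, ∀ ξ ∈ (ch y).target, ∀ (a : ℂ) w, S y i ξ (a • w) = a ^ deg i * S y i ξ w
  inj : ∀ y, ∀ ξ ∈ (ch y).target, ∀ w, w ≠ 0 → ∀ u, (∀ i, fderiv ℂ (S y i ξ) w u = 0) → u = 0
  compat : ∀ y y' x, x ∈ (ch y).source → x ∈ (ch y').source → ∀ i w,
    S y i (ch y x) w =
      S y' i (ch y' x) (fderiv ℂ (fun ξ => ch y' ((ch y).symm ξ)) (ch y x) w)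

variable {E X : Type} [NormedAddCommGroup E] [NormedSpace ℂ E] [TopologicalSpace X]

namespace Geo

variable (G : Geo E X)

section maps

variable {V : Type} [NormedAddCommGroup V] [NormedSpace ℂ V]

/-- the expression of `F` in the chart `ch y` -/
def loc (y : X) (F : V → X) : V → E := fun t => G.ch y (F t)

/-- `F` is holomorphic at `t` -/
def HolAt (F : V → X) (t : V) : Prop :=
  ContinuousAt F t ∧ ∀ y, F t ∈ (G.ch y).source → AnalyticAt ℂ (G.loc y F) t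

/-- `b` carries the symbol `c` at the point `ξ` of the chart `ch y` -/
def State (c : V → Fin G.L → ℂ) (y : X) (ξ : E) (b : V →L[ℂ] E) : Prop :=
  ∀ i u, G.S y i ξ (b u) = c u i

/-- `F` is holomorphic at `t`, and its derivative there satisfies `S i (dF u) = c (Θ u) i`. -/
def FlAt (c : V → Fin G.L → ℂ) (Θ : V → V →L[ℂ] V) (F : V → X) (t : V) : Prop :=
  G.HolAt F t ∧ ∀ y, F t ∈ (G.ch y).source → ∀ i u,
    G.S y i (G.ch y (F t)) (fderiv ℂ (G.loc y F) t u) = c (Θ t u) i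

/-- the flat maps defined on all of `V`, with symbol `c` -/
def K (c : V → Fin G.L → ℂ) : Set (V → X) :=
  {F | ∀ t, G.FlAt c (fun _ => ContinuousLinearMap.id ℂ V) F t}

end maps

end Geo

/-- the translate of `F` by `s` -/
def tr {V X : Type} [Add V] (s : V) (F : V → X) : V → X := fun t => F (t + s)

/-- a minimal closed translation invariant set `M` of flat maps with symbol `c` -/
structure Sys (G : Geo E X) (V : Type) [NormedAddCommGroup V] [NormedSpace ℂ V] where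
  c : V → Fin G.L → ℂ
  c_inj : ∀ u, c u = 0 → u = 0
  M : Set (V → X)
  sub : M ⊆ G.K c
  ne : M.Nonempty
  cpt : IsCompact M
  inv : ∀ t, ∀ F ∈ M, tr t F ∈ M
  /-- all orbits are dense -/
  dense : ∀ F ∈ M, ∀ F' ∈ M, ∀ U ∈ 𝓝 F', ∃ t, tr t F ∈ U
  e₀ : V
  e₀_ne : e₀ ≠ 0

namespace Sys

variable {G : Geo E X} {V : Type} [NormedAddCommGroup V] [NormedSpace ℂ V] (A : Sys G V)

/-- `Φ` computes the members of `M` near `F` at the times near `t₀`, from the chart `y` to the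
chart `y'` -/
def Trf (y y' : X) (F : V → X) (t₀ : V) (Φ : E × V → E) : Prop :=
  F 0 ∈ (G.ch y).source ∧ F t₀ ∈ (G.ch y').source ∧ AnalyticAt ℂ Φ (G.ch y (F 0), t₀) ∧
    ∀ᶠ p : (V → X) × V in 𝓝[A.M] F ×ˢ 𝓝 t₀, p.1 p.2 ∈ (G.ch y').source ∧
      G.ch y' (p.1 p.2) = Φ (G.ch y (p.1 0), p.2)

/-- `f` is analytic near `F 0` and vanishes at `F' 0` for all `F'` in `M` near `F` -/
def Van (y : X) (F : V → X) (f : E → ℂ) : Prop :=
  AnalyticAt ℂ f (G.ch y (F 0)) ∧ ∀ᶠ F' in 𝓝[A.M] F, f (G.ch y (F' 0)) = 0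

/-- the Zariski tangent space of `M` at `F` -/
def Z (y : X) (F : V → X) : Submodule ℂ E where
  carrier := {u | ∀ f, A.Van y F f → fderiv ℂ f (G.ch y (F 0)) u = 0}
  add_mem' := fun {a b} ha hb f hf => by rw [map_add, ha f hf, hb f hf, add_zero]
  zero_mem' := fun f _ => map_zero _
  smul_mem' := fun r a ha f hf => by rw [map_smul, ha f hf, smul_zero]

open Classical in
/-- the derivative of the transport of `M` by the time `t` -/
noncomputable def D (y y' : X) (F : V → X) (t : V) : E →L[ℂ] E :=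
  if h : ∃ Φ, A.Trf y y' F t Φ then fderiv ℂ (fun ξ => h.choose (ξ, t)) (G.ch y (F 0)) else 0

/-- the differential of the fundamental forms at the velocity vector of `F` in the direction
`e₀` -/
noncomputable def jm (y : X) (F : V → X) : E →L[ℂ] (Fin G.L → ℂ) :=
  ContinuousLinearMap.pi fun i =>
    fderiv ℂ (G.S y i (G.ch y (F 0))) (fderiv ℂ (G.loc y F) 0 A.e₀)

end Sys

/-- parallelism of a minimal set of flat maps -/
structure Par {G : Geo E X} {V : Type} [NormedAddCommGroup V] [NormedSpace ℂ V]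
    (A : Sys G V) where
  W : Submodule ℂ (Fin G.L → ℂ)
  w : X → (V → X) → W →L[ℂ] E
  cc : W → Fin G.L → ℂ
  θ : V → W →L[ℂ] W
  α : V →L[ℂ] W
  w_loc : ∀ F ∈ A.M, ∀ y, F 0 ∈ (G.ch y).source → ∃ ω : E → W →L[ℂ] E,
    AnalyticAt ℂ ω (G.ch y (F 0)) ∧ ∀ᶠ F' in 𝓝[A.M] F, w y F' = ω (G.ch y (F' 0))
  w_mem : ∀ F ∈ A.M, ∀ y, F 0 ∈ (G.ch y).source → ∀ a, w y F a ∈ A.Z y F
  w_surj : ∀ F ∈ A.M, ∀ y, F 0 ∈ (G.ch y).source → ∀ u ∈ A.Z y F, ∃ a, w y F a = u
  w_S : ∀ F ∈ A.M, ∀ y, F 0 ∈ (G.ch y).source → ∀ a i,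
    G.S y i (G.ch y (F 0)) (w y F a) = cc a i
  cc_inj : ∀ a, cc a = 0 → a = 0
  θ_diff : Differentiable ℂ θ
  θ_add : ∀ s t, θ (s + t) = (θ s).comp (θ t)
  θ_zero : θ 0 = ContinuousLinearMap.id ℂ W
  w_flow : ∀ F ∈ A.M, ∀ y y' t, F 0 ∈ (G.ch y).source → F t ∈ (G.ch y').source → ∀ a,
    A.D y y' F t (w y F a) = w y' (tr t F) (θ t a)
  w_vel : ∀ F ∈ A.M, ∀ y, F 0 ∈ (G.ch y).source → ∀ τ,
    fderiv ℂ (G.loc y F) 0 τ = w y F (α τ)
  α_inj : Function.Injective α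
  θ_α : ∀ t τ, θ t (α τ) = α τ

/-- the linear map `(τ, ς) ↦ (τ + ς β(t), χ(t) ς)` -/
noncomputable def shear {V : Type} [NormedAddCommGroup V] [NormedSpace ℂ V] (χ : V → ℂ)
    (β : V → V) (t : V) : V × ℂ →L[ℂ] V × ℂ :=
  (ContinuousLinearMap.fst ℂ V ℂ + (ContinuousLinearMap.snd ℂ V ℂ).smulRight (β t)).prod
    (χ t • ContinuousLinearMap.snd ℂ V ℂ)

/-- the `(1, 0)`-derivative (times two) of `f` at `p` in the direction `A` -/
noncomputable def dz {W : Type} [NormedAddCommGroup W] [NormedSpace ℂ W] (f : W → ℂ) (p A : W) :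
    ℂ :=
  fderiv ℝ f p A - Complex.I * fderiv ℝ f p (Complex.I • A)

/-- a Kähler metric, in charts -/
structure Kah (G : Geo E X) where
  h : X → E → E → E → ℂ
  smooth : ∀ y, ∀ ξ ∈ (G.ch y).target, ∀ A B, ContDiffAt ℝ 1 (fun ξ => h y ξ A B) ξ
  add_left : ∀ y, ∀ ξ ∈ (G.ch y).target, ∀ A A' B, h y ξ (A + A') B = h y ξ A B + h y ξ A' B
  smul_left : ∀ y, ∀ ξ ∈ (G.ch y).target, ∀ (a : ℂ) A B, h y ξ (a • A) B = a * h y ξ A B
  herm : ∀ y, ∀ ξ ∈ (G.ch y).target, ∀ A B, h y ξ B A = star (h y ξ A B)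
  pos : ∀ y, ∀ ξ ∈ (G.ch y).target, ∀ A, A ≠ 0 → 0 < (h y ξ A A).re
  compat : ∀ y y' x, x ∈ (G.ch y).source → x ∈ (G.ch y').source → ∀ A B,
    h y (G.ch y x) A B =
      h y' (G.ch y' x) (fderiv ℂ (fun ξ => G.ch y' ((G.ch y).symm ξ)) (G.ch y x) A)
        (fderiv ℂ (fun ξ => G.ch y' ((G.ch y).symm ξ)) (G.ch y x) B)
  kahler : ∀ y, ∀ ξ ∈ (G.ch y).target, ∀ A B C,
    dz (fun ξ => h y ξ B C) ξ A = dz (fun ξ => h y ξ A C) ξ B

/-- a holomorphic immersion into a projective space, by local lifts in the charts -/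
structure Prj (G : Geo E X) where
  N : ℕ
  line : X → Submodule ℂ (EuclideanSpace ℂ (Fin N))
  lift : ∀ y, ∀ ξ₀ ∈ (G.ch y).target, ∃ g : E → EuclideanSpace ℂ (Fin N),
    AnalyticAt ℂ g ξ₀ ∧
    (∀ᶠ ξ in 𝓝 ξ₀, g ξ ≠ 0 ∧ line ((G.ch y).symm ξ) = Submodule.span ℂ {g ξ}) ∧
    ∀ (u : E) (a : ℂ), fderiv ℂ g ξ₀ u = a • g ξ₀ → u = 0

end Pool.Agent.SS
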