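import Pool.Agent.Lib_helper64.SS.B.AVG
import Pool.Agent.Lib_helper64.SS.B.BND
import Pool.Agent.Lib_helper64.SS.B.BRO
import Pool.Agent.Lib_helper64.SS.B.COV
import Pool.Agent.Lib_helper64.SS.B.CPT
import Pool.Agent.Lib_helper64.SS.B.CSP
import Pool.Agent.Lib_helper64.SS.B.DER
import Pool.Agent.Lib_helper64.SS.B.DIV
import Pool.Agent.Lib_helper64.SS.B.EXT
import Pool.Agent.Lib_helper64.SS.B.FLB
import Pool.Agent.Lib_helper64.SS.B.FLX
import Pool.Agent.Lib_helper64.SS.B.FRM
import Pool.Agent.Lib_helper64.SS.B.FSM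
import Pool.Agent.Lib_helper64.SS.B.GRM
import Pool.Agent.Lib_helper64.SS.B.HOL
import Pool.Agent.Lib_helper64.SS.B.IN1
import Pool.Agent.Lib_helper64.SS.B.IN2
import Pool.Agent.Lib_helper64.SS.B.IN3
import Pool.Agent.Lib_helper64.SS.B.JEN
import Pool.Agent.Lib_helper64.SS.B.JMP
import Pool.Agent.Lib_helper64.SS.B.KCM
import Pool.Agent.Lib_helper64.SS.B.KLM
import Pool.Agent.Lib_helper64.SS.B.KPB
import Pool.Agent.Lib_helper64.SS.B.LIN
import Pool.Agent.Lib_helper64.SS.B.LIO
import Pool.Agent.Lib_helper64.SS.B.LMB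
import Pool.Agent.Lib_helper64.SS.B.LOC
import Pool.Agent.Lib_helper64.SS.B.MIN
import Pool.Agent.Lib_helper64.SS.B.ODE
import Pool.Agent.Lib_helper64.SS.B.OSG
import Pool.Agent.Lib_helper64.SS.B.PAR
import Pool.Agent.Lib_helper64.SS.B.PKG
import Pool.Agent.Lib_helper64.SS.B.PLU
import Pool.Agent.Lib_helper64.SS.B.PRJ
import Pool.Agent.Lib_helper64.SS.B.PTA
import Pool.Agent.Lib_helper64.SS.B.RIG
import Pool.Agent.Lib_helper64.SS.B.TOR
import Pool.Agent.Lib_helper64.SS.B.TRF
import Pool.Agent.Lib_helper64.SS.B.UDL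
import Pool.Agent.Lib_helper64.SS.B.UNI
import Pool.Agent.Lib_helper64.SS.B.ZDM
import Pool.Agent.Lib_helper64.SS.B.ZFN
import Pool.Agent.Lib_helper64.SS.B.ZFR

/-! Final assembly of the theorem on manifolds with immersive symmetric differentials
(MP_45e720_ag). -/

set_option autoImplicit false
set_option linter.unusedSectionVars false

open Filter Topology Metric Set
open scoped Manifold ContDiff

namespace Pool.Agent.SS

section step

variable {E X : Type} [NormedAddCommGroup E] [NormedSpace ℂ E] [FiniteDimensional ℂ E]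
  [TopologicalSpace X] {G : Geo E X}
  {V : Type} [NormedAddCommGroup V] [NormedSpace ℂ V] [FiniteDimensional ℂ V]

theorem cc_hom (A : Sys G V) (P : Par A) (r : ℂ) (a : P.W) (i : Fin G.L) :
    P.cc (r • a) i = r ^ G.deg i * P.cc a i := by
  obtain ⟨F, hF⟩ := A.ne
  rw [← P.w_S F hF (F 0) (G.mem _) (r • a) i, ← P.w_S F hF (F 0) (G.mem _) a i, map_smul,
    G.homog _ _ _ ((G.ch (F 0)).map_source (G.mem _))]

theorem cc_cont (A : Sys G V) (P : Par A) : Continuous P.cc := by
  obtain ⟨F, hF⟩ := A.ne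
  refine continuous_pi fun i => ?_
  have h : (fun a => P.cc a i) = fun a => G.S (F 0) i (G.ch (F 0) (F 0)) (P.w (F 0) F a) := by
    funext a
    rw [P.w_S F hF (F 0) (G.mem _) a i]
  rw [h, continuous_iff_continuousAt]
  intro a
  have h1 := (G.S_an ((G.ch (F 0)).map_source (G.mem (F 0))) i (P.w (F 0) F a)).continuousAt
  exact h1.comp (f := fun a => P.w (F 0) F a) (P.w (F 0) F).continuous.continuousAt

/-- the derivative of a flat map is injective -/
theorem fderiv_inj {c : V → Fin G.L → ℂ} (hc : ∀ u, c u = 0 → u = 0) {F : V → X}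
    (hF : F ∈ G.K c) (t : V) {u : V} (hu : fderiv ℂ (G.loc (F t) F) t u = 0) : u = 0 := by
  refine hc u (funext fun i => ?_)
  have h := (hF t).2 (F t) (G.mem _) i u
  rw [hu, G.S_zero ((G.ch (F t)).map_source (G.mem _))] at h
  exact h.symm

/-- The germ of one more dimension is entire and flat. -/
theorem exists_bigger [CompactSpace X] [T2Space X] (A : Sys G V) (P : Par A) (K : Kah G)
    (hns : ¬ Function.Surjective P.α) :
    ∃ c : V × ℂ → Fin G.L → ℂ, (∀ q, c q = 0 → q = 0) ∧ (G.K c).Nonempty := by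
  obtain ⟨w, χ, β, hw, hχ, hβ, hχ0, hθ⟩ :=
    eigen_mod P.θ P.θ_diff P.θ_add P.θ_zero P.α P.α_inj P.θ_α hns
  obtain ⟨H₀, ε, hε, hH₀⟩ := exists_germ A P w χ β hχ hβ hθ
  set c : V × ℂ → Fin G.L → ℂ := fun q => P.cc (P.α q.1 + q.2 • w) with hcdef
  have hc : ∀ q, c q = 0 → q = 0 := by
    rintro ⟨τ, ς⟩ hq
    have h1 : P.α τ + ς • w = 0 := P.cc_inj _ hq
    by_cases hς : ς = 0
    · rw [hς, zero_smul, add_zero] at h1
      have h2 : τ = 0 := P.α_inj (by rw [h1, map_zero])
      rw [hς, h2]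
      rfl
    · exfalso
      refine hw (-(ς⁻¹ • τ)) ?_
      have h2 : P.α τ = -(ς • w) := eq_neg_of_add_eq_zero_left h1
      rw [map_neg, map_smul, h2, smul_neg, neg_neg, smul_smul, inv_mul_cancel₀ hς, one_smul]
  -- the inverse of the shear
  set Θ : V × ℂ → V × ℂ →L[ℂ] V × ℂ := fun p => shear χ β p.1 with hΘdef
  set Θi : V × ℂ → V × ℂ →L[ℂ] V × ℂ :=
    fun p => shear (fun t => (χ t)⁻¹) (fun t => -((χ t)⁻¹ • β t)) p.1 with hΘidef
  have hsh : ∀ (χ : V → ℂ) (β : V → V) (t : V) (q : V × ℂ),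
      shear χ β t q = (q.1 + q.2 • β t, χ t * q.2) := fun χ β t q => rfl
  have hi : ∀ t u, Θ t (Θi t u) = u := by
    rintro t ⟨τ, ς⟩
    simp only [hΘdef, hΘidef, hsh]
    have := hχ0 t.1
    ext
    · simp only [smul_neg, smul_smul]
      rw [mul_comm ((χ t.1)⁻¹) ς]
      abel
    · simp only
      rw [mul_inv_cancel_left₀ this]
  have hi' : ∀ t u, Θi t (Θ t u) = u := by
    rintro t ⟨τ, ς⟩
    simp only [hΘdef, hΘidef, hsh]
    have := hχ0 t.1
    ext
    · simp only [smul_neg, smul_smul]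
      have h3 : χ t.1 * ς * (χ t.1)⁻¹ = ς := by
        rw [mul_comm (χ t.1) ς, mul_assoc, mul_inv_cancel₀ this, mul_one]
      rw [h3]
      abel
    · simp only
      rw [inv_mul_cancel_left₀ this]
  have hshd : ∀ (χ : V → ℂ) (β : V → V), Differentiable ℂ χ → Differentiable ℂ β →
      Differentiable ℂ fun p : V × ℂ => shear χ β p.1 := by
    intro χ β h1 h2
    have h3 : (fun p : V × ℂ => shear χ β p.1) = fun p : V × ℂ =>
        (ContinuousLinearMap.inl ℂ V ℂ).comp (ContinuousLinearMap.fst ℂ V ℂ +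
          (ContinuousLinearMap.snd ℂ V ℂ).smulRight (β p.1)) +
        (ContinuousLinearMap.inr ℂ V ℂ).comp (χ p.1 • ContinuousLinearMap.snd ℂ V ℂ) := by
      funext p
      ext q
      all_goals simp [shear]
    rw [h3]
    have h4 : Differentiable ℂ fun p : V × ℂ => β p.1 := h2.comp differentiable_fst
    have h5 : Differentiable ℂ fun p : V × ℂ => χ p.1 := h1.comp differentiable_fst
    have h6 : Differentiable ℂ fun p : V × ℂ =>
        (ContinuousLinearMap.snd ℂ V ℂ).smulRight (β p.1) := by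
      have h7 : (fun p : V × ℂ => (ContinuousLinearMap.snd ℂ V ℂ).smulRight (β p.1)) =
          fun p : V × ℂ => (ContinuousLinearMap.smulRightL ℂ (V × ℂ) V
            (ContinuousLinearMap.snd ℂ V ℂ)) (β p.1) := by
        funext p
        rfl
      rw [h7]
      exact (ContinuousLinearMap.smulRightL ℂ (V × ℂ) V
        (ContinuousLinearMap.snd ℂ V ℂ)).differentiable.comp h4
    refine Differentiable.add ?_ ?_
    · exact (differentiable_const _).clm_comp ((differentiable_const _).add h6)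
    · exact (differentiable_const _).clm_comp (h5.smul (differentiable_const _))
  have hΘd : Differentiable ℂ Θ := hshd χ β hχ hβ
  have hΘid : Differentiable ℂ Θi := by
    have h1 : Differentiable ℂ fun t => (χ t)⁻¹ := hχ.inv hχ0
    exact hshd _ _ h1 ((h1.smul hβ).neg)
  have hΘa : ∀ t, AnalyticAt ℂ Θ t := by
    intro t
    refine osgood isOpen_univ hΘd.continuous.continuousOn (fun x _ v => ?_) t (mem_univ t)
    have h1 : Differentiable ℂ fun z : ℂ => x + z • v := by fun_prop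
    exact (hΘd.comp h1) 0
  obtain ⟨H, hH, -⟩ := flat_entire c hc Θ Θi hΘa hΘid.continuous hi hi' H₀ ε hε hH₀
  -- the Kähler estimate
  have hS : ∀ p y, H p ∈ (G.ch y).source → ∀ i (q : V × ℂ),
      G.S y i (G.ch y (H p)) (fderiv ℂ (G.loc y H) p q) =
        P.cc (P.α q.1 + q.2 • (P.θ p.1 w)) i := by
    intro p y hy i q
    rw [(hH p).2 y hy i q]
    simp only [hcdef, hΘdef, hsh]
    rw [hθ p.1, map_add, map_smul, smul_add, smul_smul, mul_comm (χ p.1) q.2]
    have h9 : P.α q.1 + q.2 • P.α (β p.1) + (q.2 * χ p.1) • w =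
        P.α q.1 + ((q.2 * χ p.1) • w + q.2 • P.α (β p.1)) := by abel
    rw [h9]
  have hdw : Differentiable ℂ fun t => P.θ t w :=
    fun t => (P.θ_diff t).clm_apply (differentiableAt_const w)
  obtain ⟨C, hC⟩ := kah_bound K P.cc (cc_cont A P) (cc_hom A P) P.cc_inj P.α
    (fun t => P.θ t w) hdw H (fun p => (hH p).1) hS
  have hconst : ∀ t, P.θ t w = w := by
    intro t
    have h1 : Bornology.IsBounded (range fun t => P.θ t w) := by
      rw [isBounded_iff_forall_norm_le]
      exact ⟨C, by rintro _ ⟨t, rfl⟩; exact hC t⟩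
    have h2 := hdw.apply_eq_apply_of_bounded h1 t 0
    rw [h2, P.θ_zero]
    rfl
  refine ⟨c, hc, H, fun p => ⟨(hH p).1, fun y hy i q => ?_⟩⟩
  rw [hS p y hy i q, hconst]
  rfl

end step

section main

variable {E X : Type} [NormedAddCommGroup E] [NormedSpace ℂ E] [FiniteDimensional ℂ E]
  [TopologicalSpace X] [CompactSpace X] [T2Space X] (G : Geo E X)

/-- there is a flat map of a space of dimension `k` -/
def HasFlat (k : ℕ) : Prop :=
  ∃ (V : Type) (_ : NormedAddCommGroup V) (_ : NormedSpace ℂ V) (_ : FiniteDimensional ℂ V)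
    (c : V → Fin G.L → ℂ), Module.finrank ℂ V = k ∧ (∀ u, c u = 0 → u = 0) ∧ (G.K c).Nonempty

theorem HasFlat.le {k : ℕ} (h : HasFlat G k) : k ≤ Module.finrank ℂ E := by
  obtain ⟨V, _, _, _, c, hk, hc, F, hF⟩ := h
  rw [← hk]
  refine LinearMap.finrank_le_finrank_of_injective
    (f := (fderiv ℂ (G.loc (F 0) F) 0).toLinearMap) ?_
  rw [injective_iff_map_eq_zero]
  intro u hu
  exact fderiv_inj hc hF 0 hu

theorem exists_periodic (K : Kah G) {k : ℕ} (hk : 0 < k) (h : HasFlat G k) :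
    ∃ (V : Type) (_ : NormedAddCommGroup V) (_ : NormedSpace ℂ V) (_ : FiniteDimensional ℂ V)
      (Λ : Submodule ℤ V) (_ : DiscreteTopology Λ) (_ : IsZLattice ℝ Λ) (F : V → X)
      (_ : Nontrivial V), (∀ t, G.HolAt F t) ∧ (∀ l ∈ Λ, ∀ t, F (t + l) = F t) ∧
        ∀ t u, fderiv ℂ (G.loc (F t) F) t u = 0 → u = 0 := by
  classical
  -- take the maximal dimension
  have hbdd : ∃ n, HasFlat G n ∧ ∀ m, HasFlat G m → m ≤ n := by
    let P : ℕ → Prop := fun n => HasFlat G n
    have h1 := Nat.findGreatest_spec (P := P) (HasFlat.le G h) h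
    refine ⟨Nat.findGreatest P (Module.finrank ℂ E), h1, fun m hm => ?_⟩
    exact Nat.le_findGreatest (HasFlat.le G hm) hm
  obtain ⟨n, ⟨V, _, _, _, c, hn, hc, hne⟩, hmax⟩ := hbdd
  have hn0 : 0 < n := hk.trans_le (hmax k h)
  have : Nontrivial V := Module.nontrivial_of_finrank_pos (R := ℂ) (by rw [hn]; exact hn0)
  obtain ⟨A, hA⟩ := exists_sys c hc hne
  obtain ⟨P⟩ := exists_par A
  have hsurj : Function.Surjective P.α := by
    by_contra hns
    obtain ⟨c', hc', hne'⟩ := exists_bigger A P K hns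
    have h1 : HasFlat G (n + 1) := by
      refine ⟨V × ℂ, inferInstance, inferInstance, inferInstance, c', ?_, hc', hne'⟩
      rw [Module.finrank_prod, hn, Module.finrank_self]
    have h2 := hmax _ h1
    omega
  obtain ⟨F, hF, Λ, hΛ, hΛ', hper⟩ := exists_torus A (by
    intro F hF y hy u hu
    obtain ⟨a, ha⟩ := P.w_surj F hF y hy u hu
    obtain ⟨τ, hτ⟩ := hsurj a
    exact ⟨τ, by rw [P.w_vel F hF y hy τ, hτ, ha]⟩)
  exact ⟨V, inferInstance, inferInstance, inferInstance, Λ, hΛ, hΛ', F, inferInstance,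
    fun t => (A.sub hF t).1, hper, fun t u => fderiv_inj A.c_inj (A.sub hF) t⟩

end main

section manifold

variable {E X : Type} [NormedAddCommGroup E] [NormedSpace ℂ E] [FiniteDimensional ℂ E]
  [TopologicalSpace X] [CompactSpace X] [T2Space X] [ChartedSpace E X]
  [IsManifold 𝓘(ℂ, E) ω X]

theorem brody_tfae (hp : IsProjective E X) (h : Immersive E X) :
    List.TFAE [BrodyHyperbolic E X, NoTorusMaps E X, NoImmersedTori E X] := by
  obtain ⟨G, hG⟩ := exists_geo h
  tfae_have 1 → 2 := by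
    intro hB V _ _ _ Λ _ _ f hf _ z z'
    have h1 : MDifferentiable 𝓘(ℂ, ℂ) 𝓘(ℂ, E) fun s : ℂ => f (z + s • (z' - z)) := by
      refine hf.comp ?_
      rw [mdifferentiable_iff_differentiable]
      fun_prop
    have h2 := hB _ h1 0 1
    simpa using h2
  tfae_have 2 → 3 := by
    intro hT V _ _ _ _ Λ _ _ f hf hper
    obtain ⟨u, hu⟩ := exists_ne (0 : V)
    refine ⟨0, u, hu, ?_⟩
    change mfderiv 𝓘(ℂ, V) 𝓘(ℂ, E) f 0 u = 0
    have h1 : f = fun _ => f 0 := funext fun z => hT V Λ f hf hper z 0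
    rw [h1, mfderiv_const]
    rfl
  tfae_have 3 → 1 := by
    intro hT f hf
    by_contra hcon
    push Not at hcon
    rw [holAt_iff G hG] at hf
    obtain ⟨g, hg, hb, hne⟩ := brody_curve f hf hcon
    obtain ⟨c, hc, hgc⟩ := flat_of_bounded g hg hb hne
    obtain ⟨Pr⟩ := exists_prj G hG hp.aux
    obtain ⟨K⟩ := exists_kah Pr
    have h1 : HasFlat G 1 :=
      ⟨ℂ, inferInstance, inferInstance, inferInstance, c, Module.finrank_self ℂ, hc, g, hgc⟩
    obtain ⟨V, _, _, _, Λ, _, _, F, _, hF, hper, himm⟩ := exists_periodic G K one_pos h1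
    have hF' := (holAt_iff G hG F).2 hF
    obtain ⟨z, u, hu, hz⟩ := hT V Λ F hF' hper
    refine hu (himm z u ?_)
    have h2 : mfderiv 𝓘(ℂ, V) 𝓘(ℂ, E) F z = fderiv ℂ (G.loc (F z) F) z := by
      rw [mfderiv, if_pos (hF' z)]
      simp only [writtenInExtChartAt, extChartAt, mfld_simps, fderivWithin_univ]
      have h3 : G.loc (F z) F = chartAt E (F z) ∘ F := by
        funext t
        rw [Geo.loc, hG]
        rfl
      rw [h3]
    rw [← h2]
    exact hz
  tfae_finish

theorem main_thm (hp : IsProjective E X) :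
    (StronglySemiample E X → Immersive E X) ∧
      (Immersive E X → List.TFAE [BrodyHyperbolic E X, NoTorusMaps E X, NoImmersedTori E X]) :=
  ⟨immersive_of_stronglySemiample, brody_tfae hp⟩

end manifold

end Pool.Agent.SS
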